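import Pool.Agent.Y80.KM.Defs2

set_option autoImplicit false

open scoped BigOperators

/-! Job 1099 (KM-FREE) of project KM of helper80: gradings of relatively free algebras. -/

namespace Pool.Agent.Y960.KM

open Pool.Agent.Y80.KM

theorem finite_length {d : ℕ} (n : ℕ) : {w : FreeMagma (Fin d) | w.length ≤ n}.Finite := by
  induction n with
  | zero =>
    convert Set.finite_empty
    ext w
    simp only [Set.mem_ofPred_eq, Set.mem_empty_iff_false, iff_false]
    have := w.length_pos
    omega
  | succ n ih =>
    refine ((Set.finite_range (FreeMagma.of : Fin d → FreeMagma (Fin d))).union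
      (Set.Finite.image2 FreeMagma.mul ih ih)).subset ?_
    intro w hw
    cases w with
    | of i => exact Or.inl ⟨i, rfl⟩
    | mul x y =>
      have hw' : x.length + y.length ≤ n + 1 := hw
      have h1 := x.length_pos
      have h2 := y.length_pos
      refine Or.inr ⟨x, ?_, y, ?_, rfl⟩
      · change x.length ≤ n; omega
      · change y.length ≤ n; omega

section FREE

variable {k : Type*} [Field k] {d : ℕ} (R : Set (NF k d))

theorem single_mul' (x y : FreeMagma (Fin d)) :
    (MonoidAlgebra.single (x * y) 1 : NF k d) =
      MonoidAlgebra.single x 1 * MonoidAlgebra.single y 1 := by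
  rw [MonoidAlgebra.single_mul_single, one_mul]

theorem qcomp_mul {m n : ℕ} {x y : QAlg R} (hx : x ∈ qcomp R m) (hy : y ∈ qcomp R n) :
    x * y ∈ qcomp R (m + n) := by
  induction hx using Submodule.span_induction with
  | mem x hx =>
    obtain ⟨w, hw, rfl⟩ := hx
    induction hy using Submodule.span_induction with
    | mem y hy =>
      obtain ⟨w', hw', rfl⟩ := hy
      refine Submodule.subset_span ⟨w * w', ?_, ?_⟩
      · change w.length + w'.length = m + n
        rw [hw, hw']
      · rw [← qmk_mul, single_mul']
    | zero => rw [mul_zero]; exact zero_mem _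
    | add y z _ _ hy hz => rw [mul_add]; exact add_mem hy hz
    | smul c y _ hy => rw [mul_smul_comm]; exact Submodule.smul_mem _ _ hy
  | zero => rw [zero_mul]; exact zero_mem _
  | add x z _ _ hx hz => rw [add_mul]; exact add_mem hx hz
  | smul c x _ hx => rw [smul_mul_assoc]; exact Submodule.smul_mem _ _ hx

theorem qcomp_finite (n : ℕ) : FiniteDimensional k (qcomp R n) := by
  apply FiniteDimensional.span_of_finite
  refine ((finite_length (d := d) n).image
    (fun w => qmk R (MonoidAlgebra.single w 1 : NF k d))).subset ?_
  rintro x ⟨w, hw, rfl⟩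
  exact ⟨w, hw.le, rfl⟩

theorem qcomp_zero : qcomp R 0 = ⊥ := by
  rw [qcomp, Submodule.span_eq_bot]
  rintro x ⟨w, hw, rfl⟩
  exact absurd hw w.length_pos.ne'

theorem qcomp_gen {n : ℕ} (hn : 2 ≤ n) : qcomp R n ≤ Submodule.span k
    {x | ∃ i j, 1 ≤ i ∧ 1 ≤ j ∧ i + j = n ∧ ∃ a ∈ qcomp R i, ∃ b ∈ qcomp R j, x = a * b} := by
  rw [qcomp, Submodule.span_le]
  rintro x ⟨w, hw, rfl⟩
  cases w with
  | of i =>
    change 1 = n at hw
    omega
  | mul x y =>
    refine Submodule.subset_span ⟨x.length, y.length, x.length_pos, y.length_pos, hw,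
      qmk R (MonoidAlgebra.single x 1), Submodule.subset_span ⟨x, rfl, rfl⟩,
      qmk R (MonoidAlgebra.single y 1), Submodule.subset_span ⟨y, rfl, rfl⟩, ?_⟩
    rw [← qmk_mul, ← single_mul']
    rfl

theorem iSup_qcomp : ⨆ n, qcomp R n = ⊤ := by
  rw [eq_top_iff]
  rintro x -
  obtain ⟨y, rfl⟩ := qmk_surjective R x
  induction y using MonoidAlgebra.induction_linear with
  | zero => rw [map_zero]; exact zero_mem _
  | add x y hx hy => rw [map_add]; exact add_mem hx hy
  | single w c =>
    have h : (MonoidAlgebra.single w c : NF k d) = c • MonoidAlgebra.single w 1 := by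
      rw [MonoidAlgebra.smul_single, smul_eq_mul, mul_one]
    rw [h, map_smul]
    exact Submodule.smul_mem _ _ (Submodule.mem_iSup_of_mem w.length
      (Submodule.subset_span ⟨w, rfl, rfl⟩))

/-- the endomorphism that doubles the generators -/
noncomputable def dbl (k : Type*) [Field k] (d : ℕ) : NF k d →ₙₐ[k] NF k d :=
  FreeNonUnitalNonAssocAlgebra.lift k fun i => (2 : k) • MonoidAlgebra.single (FreeMagma.of i) 1

theorem dbl_single (w : FreeMagma (Fin d)) :
    dbl k d (MonoidAlgebra.single w 1) = (2 : k) ^ w.length • MonoidAlgebra.single w 1 := by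
  induction w with
  | ih1 i =>
    have := FreeNonUnitalNonAssocAlgebra.lift_of_apply k
      (fun i : Fin d => (2 : k) • (MonoidAlgebra.single (FreeMagma.of i) 1 : NF k d)) i
    change dbl k d (MonoidAlgebra.single (FreeMagma.of i) 1) = _ at this
    rw [this]
    change _ = (2 : k) ^ 1 • _
    rw [pow_one]
  | ih2 x y hx hy =>
    rw [single_mul', map_mul, hx, hy, smul_mul_smul_comm, ← pow_add]
    rfl

theorem idealOf_le_comap (φ : NF k d →ₙₐ[k] NF k d) (hφ : ∀ r ∈ R, φ r ∈ R) :
    idealOf R ≤ (idealOf R).comap (φ : NF k d →ₗ[k] NF k d) := by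
  apply idealOf_le
  · intro r hr
    exact subset_idealOf R (hφ r hr)
  · intro a x hx
    have hx' : φ x ∈ idealOf R := hx
    constructor
    · change φ (a * x) ∈ idealOf R
      rw [map_mul]
      exact mul_mem_idealOf R hx' _
    · change φ (x * a) ∈ idealOf R
      rw [map_mul]
      exact mul_mem_idealOf' R hx' _

theorem qcomp_internal [CharZero k] (hR : ∀ φ : NF k d →ₙₐ[k] NF k d, ∀ r ∈ R, φ r ∈ R) :
    DirectSum.IsInternal (qcomp R) := by
  apply DirectSum.isInternal_submodule_of_iSupIndep_of_iSup_eq_top _ (iSup_qcomp R)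
  let Φ : Module.End k (QAlg R) := (idealOf R).mapQ (idealOf R) (dbl k d : NF k d →ₗ[k] NF k d)
    (idealOf_le_comap R _ (hR _))
  have hΦ : ∀ x : NF k d, Φ (qmk R x) = qmk R (dbl k d x) := fun x => rfl
  have hind := Φ.eigenspaces_iSupIndep
  have hinj : Function.Injective fun n : ℕ => (2 : k) ^ n := by
    intro m n h
    have h' : ((2 ^ m : ℕ) : k) = ((2 ^ n : ℕ) : k) := by push_cast; exact h
    exact Nat.pow_right_injective le_rfl (Nat.cast_injective h')
  refine (hind.comp hinj).mono ?_
  intro n
  change qcomp R n ≤ Module.End.eigenspace Φ ((2 : k) ^ n)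
  rw [qcomp, Submodule.span_le]
  rintro x ⟨w, hw, rfl⟩
  rw [SetLike.mem_coe, Module.End.mem_eigenspace_iff, hΦ, dbl_single, map_smul, hw]

theorem qcomp_one (hR : ∀ r ∈ R, ∀ i, MonoidAlgebra.coeff (r : MonoidAlgebra k (FreeMagma (Fin d)))
    (FreeMagma.of i) = 0) : Module.finrank k (qcomp R 1) = d := by
  let v : Fin d → QAlg R := fun i => qmk R (MonoidAlgebra.single (FreeMagma.of i) 1)
  have hspan : qcomp R 1 = Submodule.span k (Set.range v) := by
    rw [qcomp]
    congr 1
    ext x
    constructor
    · rintro ⟨w, hw, rfl⟩
      cases w with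
      | of i => exact ⟨i, rfl⟩
      | mul x y =>
        change x.length + y.length = 1 at hw
        have h1 := x.length_pos
        have h2 := y.length_pos
        omega
    · rintro ⟨i, rfl⟩
      exact ⟨FreeMagma.of i, rfl, rfl⟩
  -- the linear coefficients
  let c : NF k d →ₗ[k] (Fin d → k) :=
    { toFun := fun x i => MonoidAlgebra.coeff (x : MonoidAlgebra k (FreeMagma (Fin d)))
        (FreeMagma.of i)
      map_add' := fun x y => rfl
      map_smul' := fun a x => rfl }
  have hc : idealOf R ≤ LinearMap.ker c := by
    apply idealOf_le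
    · intro r hr
      rw [SetLike.mem_coe, LinearMap.mem_ker]
      funext i
      exact hR r hr i
    · have key : ∀ a b : NF k d, c (a * b) = 0 := by
        intro a b
        induction a using MonoidAlgebra.induction_linear with
        | zero => rw [zero_mul, map_zero]
        | add x y hx hy => rw [add_mul, map_add, hx, hy, add_zero]
        | single w r =>
          induction b using MonoidAlgebra.induction_linear with
          | zero => rw [mul_zero, map_zero]
          | add x y hx hy => rw [mul_add, map_add, hx, hy, add_zero]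
          | single w' r' =>
            rw [MonoidAlgebra.single_mul_single]
            funext i
            change MonoidAlgebra.coeff (MonoidAlgebra.single (w * w') (r * r')) (FreeMagma.of i) = 0
            rw [MonoidAlgebra.coeff_single, Finsupp.single_apply, if_neg]
            intro h
            change FreeMagma.mul w w' = FreeMagma.of i at h
            cases h
      intro a x _
      exact ⟨key a x, key x a⟩
  let c' : QAlg R →ₗ[k] (Fin d → k) := (idealOf R).liftQ c hc
  have hv : LinearIndependent k v := by
    apply LinearIndependent.of_comp c'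
    have : (c' ∘ v) = fun i => (Pi.single i 1 : Fin d → k) := by
      funext i
      change c (MonoidAlgebra.single (FreeMagma.of i) 1) = _
      funext j
      change MonoidAlgebra.coeff (MonoidAlgebra.single (FreeMagma.of i) (1 : k)) (FreeMagma.of j) = _
      rw [MonoidAlgebra.coeff_single, Finsupp.single_apply, Pi.single_apply]
      by_cases h : i = j
      · subst h
        simp
      · rw [if_neg (fun h' => h (by cases h'; rfl)), if_neg (fun h' => h h'.symm)]
    rw [this]
    exact Pi.linearIndependent_single_one (Fin d) k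
  rw [hspan, finrank_span_eq_card hv, Fintype.card_fin]

end FREE

end Pool.Agent.Y960.KM
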