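import Pool.Agent.Y80.KM.Defs2

set_option autoImplicit false

open scoped BigOperators

/-! Job 1104 (KM-ALTDIM) of project KM of helper80: the dimension of the component of degree `n` of
the free alternative algebra on `d` generators is at least `d ^ n`. -/

namespace Pool.Agent.Y960.KM

open Pool.Agent.Y80.KM

section ALTDIM

/-- the map to the free associative algebra -/
noncomputable def toAssoc (k : Type*) [Field k] (d : ℕ) :
    NF k d →ₙₐ[k] MonoidAlgebra k (FreeMonoid (Fin d)) :=
  FreeNonUnitalNonAssocAlgebra.lift k fun i => MonoidAlgebra.single (FreeMonoid.of i) 1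

/-- the associative word of a nonassociative word -/
def toWord {d : ℕ} : FreeMagma (Fin d) → FreeMonoid (Fin d)
  | .of i => FreeMonoid.of i
  | .mul x y => toWord x * toWord y

theorem toAssoc_single (k : Type*) [Field k] {d : ℕ} (w : FreeMagma (Fin d)) :
    toAssoc k d (MonoidAlgebra.single w 1) = MonoidAlgebra.single (toWord w) 1 := by
  induction w with
  | ih1 i =>
    exact FreeNonUnitalNonAssocAlgebra.lift_of_apply k _ i
  | ih2 x y hx hy =>
    have : (MonoidAlgebra.single (x * y) 1 : NF k d) =
        MonoidAlgebra.single x 1 * MonoidAlgebra.single y 1 := by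
      rw [MonoidAlgebra.single_mul_single, one_mul]
    rw [this, map_mul, hx, hy, MonoidAlgebra.single_mul_single, one_mul]
    rfl

theorem ideal_le_ker (k : Type*) [Field k] (d : ℕ) : idealOf (altRel k d) ≤
    LinearMap.ker ((toAssoc k d : NF k d →ₙₐ[k] MonoidAlgebra k (FreeMonoid (Fin d))) :
      NF k d →ₗ[k] MonoidAlgebra k (FreeMonoid (Fin d))) := by
  apply idealOf_le
  · rintro x ⟨a, b, rfl | rfl⟩
    · rw [SetLike.mem_coe, LinearMap.mem_ker]
      change toAssoc k d (a * a * b - a * (a * b)) = 0
      rw [map_sub, map_mul, map_mul, map_mul, map_mul, mul_assoc, sub_self]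
    · rw [SetLike.mem_coe, LinearMap.mem_ker]
      change toAssoc k d (b * a * a - b * (a * a)) = 0
      rw [map_sub, map_mul, map_mul, map_mul, map_mul, mul_assoc, sub_self]
  · intro a x hx
    rw [LinearMap.mem_ker] at hx
    have hx' : toAssoc k d x = 0 := hx
    constructor <;> rw [LinearMap.mem_ker]
    · change toAssoc k d (a * x) = 0
      rw [map_mul, hx', mul_zero]
    · change toAssoc k d (x * a) = 0
      rw [map_mul, hx', zero_mul]

/-- the map of the free alternative algebra to the free associative algebra -/
noncomputable def altMap (k : Type*) [Field k] (d : ℕ) : QAlg (altRel k d) →ₗ[k]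
    MonoidAlgebra k (FreeMonoid (Fin d)) :=
  (idealOf (altRel k d)).liftQ _ (ideal_le_ker k d)

theorem altMap_mk (k : Type*) [Field k] {d : ℕ} (w : FreeMagma (Fin d)) :
    altMap k d (qmk (altRel k d) (MonoidAlgebra.single w 1)) =
      MonoidAlgebra.single (toWord w) 1 := toAssoc_single k w

/-- right normed words -/
def pw {d : ℕ} : Fin d → List (Fin d) → FreeMagma (Fin d)
  | x, [] => .of x
  | x, y :: l => .mul (.of x) (pw y l)

theorem toWord_pw {d : ℕ} (l : List (Fin d)) :
    ∀ x, toWord (pw x l) = FreeMonoid.ofList (x :: l) := by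
  induction l with
  | nil => intro x; rfl
  | cons y l ih =>
    intro x
    rw [pw, toWord, toWord, ih]
    rfl

theorem length_pw {d : ℕ} (l : List (Fin d)) : ∀ x, (pw x l).length = l.length + 1 := by
  induction l with
  | nil => intro x; rfl
  | cons y l ih =>
    intro x
    change 1 + (pw y l).length = l.length + 1 + 1
    rw [ih]
    omega

theorem finite_length' {d : ℕ} (n : ℕ) : {w : FreeMagma (Fin d) | w.length ≤ n}.Finite := by
  induction n with
  | zero =>
    convert Set.finite_empty
    ext w
    simp only [Set.mem_ofPred_eq, Set.mem_empty_iff_false, iff_false]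
    have := w.length_pos
    omega
  | succ n ih =>
    refine ((Set.finite_range (FreeMagma.of : Fin d → FreeMagma (Fin d))).union
      (Set.Finite.image2 FreeMagma.mul ih ih)).subset ?_
    intro w hw
    cases w with
    | of i => exact Or.inl ⟨i, rfl⟩
    | mul x y =>
      have hw' : x.length + y.length ≤ n + 1 := hw
      have h1 := x.length_pos
      have h2 := y.length_pos
      refine Or.inr ⟨x, ?_, y, ?_, rfl⟩
      · change x.length ≤ n; omega
      · change y.length ≤ n; omega

theorem alt_dim (k : Type*) [Field k] (d n : ℕ) (hn : 1 ≤ n) :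
    d ^ n ≤ Module.finrank k (qcomp (altRel k d) n) := by
  obtain ⟨m, rfl⟩ : ∃ m, n = m + 1 := ⟨n - 1, by omega⟩
  have : FiniteDimensional k (qcomp (altRel k d) (m + 1)) := by
    apply FiniteDimensional.span_of_finite
    refine ((finite_length' (d := d) (m + 1)).image
      (fun w => qmk (altRel k d) (MonoidAlgebra.single w 1 : NF k d))).subset ?_
    rintro x ⟨w, hw, rfl⟩
    exact ⟨w, hw.le, rfl⟩
  let v : (Fin (m + 1) → Fin d) → qcomp (altRel k d) (m + 1) := fun f =>
    ⟨qmk (altRel k d) (MonoidAlgebra.single (pw (f 0) (List.ofFn fun i : Fin m => f i.succ)) 1),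
      Submodule.subset_span ⟨_, by rw [length_pw, List.length_ofFn], rfl⟩⟩
  have hv : LinearIndependent k v := by
    apply LinearIndependent.of_comp ((altMap k d).comp (Submodule.subtype _))
    have hinj : Function.Injective (fun f : Fin (m + 1) → Fin d =>
        (FreeMonoid.ofList (List.ofFn f) : FreeMonoid (Fin d))) := by
      intro f g h
      exact List.ofFn_injective (FreeMonoid.ofList.injective h)
    have hli : LinearIndependent k (fun w : FreeMonoid (Fin d) => (Finsupp.single w (1 : k))) :=
      Finsupp.linearIndependent_single_one k _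
    have h1 := hli.comp _ hinj
    have h2 := h1.map'
      (MonoidAlgebra.coeffLinearEquiv (S := k) (M := FreeMonoid (Fin d)) k).symm.toLinearMap
      (LinearEquiv.ker _)
    have h3 : (((altMap k d).comp (Submodule.subtype (qcomp (altRel k d) (m + 1)))) ∘ v) =
        (MonoidAlgebra.coeffLinearEquiv (S := k) (M := FreeMonoid (Fin d)) k).symm.toLinearMap ∘
          ((fun w => (Finsupp.single w (1 : k))) ∘ (fun f : Fin (m + 1) → Fin d =>
        (FreeMonoid.ofList (List.ofFn f) : FreeMonoid (Fin d)))) := by
      funext f
      simp only [Function.comp_apply, LinearMap.comp_apply, Submodule.subtype_apply, v]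
      rw [altMap_mk, toWord_pw, ← List.ofFn_succ]
      rfl
    rw [h3]
    exact h2
  have := hv.fintype_card_le_finrank
  rw [Fintype.card_fun, Fintype.card_fin, Fintype.card_fin] at this
  exact this

end ALTDIM

end Pool.Agent.Y960.KM
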